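import Pool.Agent.W2helper42.TQ.TbMain

/-!
# Jannsen's conjecture for schemes given by quadratic equations

The generalized conjecture of Tate and Beilinson is true for the affine schemes over a finite field
that are given by one equation of degree at most two, in any number of variables, over a base of
dimension at most one, or by two equations of degree at most two over a finite field, with arbitrary
singularities; and for all schemes that are obtained from these by cutting and pasting (for example
closed subschemes of projective spaces given by two quadratic equations, and families of quadrics over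
curves). In general `s + 1` quadratic equations, in any number of variables, over a base of dimension
`e`, are reduced to schemes of dimension at most `e + s`.
-/

set_option autoImplicit false

namespace Pool.Agent.Results.MP_2ce3e7_ag.QuadraticEquations

open AlgebraicGeometry CategoryTheory Pool.Agent.W2helper42.TQ

noncomputable section

/-- The closed subscheme `q_0(y) = ... = q_s(y) = 0` of an affine space over `Spec R`. -/
abbrev Zeros {R σ : Type} [CommRing R] {s : ℕ} (q : Fin (s + 1) → MvPolynomial σ R) :
    Scheme.{0} :=
  Sp (MvPolynomial σ R ⧸ Ideal.span (Set.range q))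

/-- The class of schemes over the field with `p` elements that is generated by
* the separated schemes of finite type of dimension at most `d`;
* the affine schemes `q_0(y) = ... = q_s(y) = 0` where the `q_j` are polynomials of total degree at
  most two in finitely many variables `y` over a ring `R` of finite type of Krull dimension at most
  `e`, with `e + s ≤ d`;
under isomorphisms, two out of three for a closed subscheme and its open complement, `Spec R` and
`Spec R[t]` (in both directions), and the passage from `Spec R[t] / (t ^ 2 + b t + c)` to `Spec R`. -/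
inductive Quadr (p d : ℕ) : Scheme.{0} → Prop
  | dim (X : Scheme.{0}) : FT p X → topologicalKrullDim X ≤ d → Quadr p d X
  | eqs (R σ : Type) [CommRing R] [Finite σ] (e s : ℕ) (q : Fin (s + 1) → MvPolynomial σ R) :
      Fg p R → ringKrullDim R ≤ e → e + s ≤ d → (∀ i, (q i).totalDegree ≤ 2) →
      Quadr p d (Zeros q)
  | iso (X Y : Scheme.{0}) : FT p X → (X ≅ Y) → Quadr p d X → Quadr p d Y
  | closed (Z X U : Scheme.{0}) : Triple Z X U → FT p X → Quadr p d X → Quadr p d U → Quadr p d Z
  | total (Z X U : Scheme.{0}) : Triple Z X U → FT p X → Quadr p d Z → Quadr p d U → Quadr p d X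
  | opened (Z X U : Scheme.{0}) : Triple Z X U → FT p X → Quadr p d Z → Quadr p d X → Quadr p d U
  | line (R : Type) [CommRing R] : Fg p R → Quadr p d (Sp R) → Quadr p d (Sp (Polynomial R))
  | line' (R : Type) [CommRing R] : Fg p R → Quadr p d (Sp (Polynomial R)) → Quadr p d (Sp R)
  | double (R : Type) [CommRing R] (b c : R) : Fg p R → Quadr p d (Db R b c) → Quadr p d (Sp R)

/-- Let `T` be motivic and `ℓ`-adic homology, and let `d` be such that Jannsen's conjecture `TB` is
known in dimension at most `d`; this is no condition if `d ≤ 1`. Then `TB` holds for all schemes of the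
class `Quadr p d`. -/
theorem result (p : ℕ) [Fact p.Prime] (Ω : Type) [Field Ω] [CharZero Ω] (T : Theory Ω)
    (hT : IsTheory p T) (d : ℕ)
    (hd : 1 < d → ∀ X : Scheme.{0}, FT p X → topologicalKrullDim X ≤ d → T.TB X)
    (X : Scheme.{0}) (hX : Quadr p d X) : T.TB X := by
  have hdim : ∀ X : Scheme.{0}, FT p X → topologicalKrullDim X ≤ d → T.TB X := by
    intro X hX hXd
    rcases lt_or_ge 1 d with h | h
    · exact hd h X hX hXd
    · refine hT.curves X hX (hXd.trans ?_)
      exact_mod_cast h
  have hn := nice_tb hT
  have hI : InDim p (PR p (fun X => T.TB X)) d := inDim_of hn hdim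
  induction hX with
  | dim X h1 h2 => exact hdim X h1 h2
  | eqs R σ e s q h1 h2 h3 h5 =>
    exact quadrics W2helper15.TQ.piece_E (tb_nice hT) hI h1 e h2 s h3 q h5
      (fg_quot (fg_mv h1 σ) _)
  | iso X Y h1 e _ ih => exact hn.iso X Y h1 e ih
  | closed Z X U h3 h _ _ ih1 ih2 =>
    obtain ⟨i, j, h1, h2, h4⟩ := h3
    exact hn.closed Z X U i j h1 h2 h h4 ih1 ih2
  | total Z X U h3 h _ _ ih1 ih2 =>
    obtain ⟨i, j, h1, h2, h4⟩ := h3
    exact hn.total Z X U i j h1 h2 h h4 ih1 ih2
  | opened Z X U h3 h _ _ ih1 ih2 =>
    obtain ⟨i, j, h1, h2, h4⟩ := h3
    exact hn.opened Z X U i j h1 h2 h h4 ih1 ih2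
  | line R h1 _ ih => exact (tb_line hT h1).1 ih
  | line' R h1 _ ih => exact (tb_line hT h1).2 ih
  | double R b c h1 _ ih => exact tb_double hT b c h1 ih

end

end Pool.Agent.Results.MP_2ce3e7_ag.QuadraticEquations
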