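import Pool.Agent.W2helper42.TQ.TpMain
import Pool.Agent.W2helper42.TQ.Smooth

/-!
# Jannsen's conjecture for all schemes and for smooth affine cubic hypersurfaces

Every affine scheme `X` of finite type over the field with `p` elements has a smooth affine
hypersurface `C` of the form `y_0 q_0(x) + ... + y_r q_r(x) = 1` over this field, where every `q_j` is
one of the polynomials `x_a x_b - x_c`, `x_a + x_b - x_c`, `x_a - 1`, such that the generalized
conjecture of Tate and Beilinson holds for `X` if and only if it holds for `C`. It follows that it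
holds for all separated schemes of finite type over the field with `p` elements if and only if it
holds for these hypersurfaces.

The conjecture for a scheme `X` over the field with `p ^ a` elements is equivalent to the conjecture for
`X` as a scheme over the field with `p` elements, so all finite fields are covered.
-/

set_option autoImplicit false

namespace Pool.Agent.Results.MP_2ce3e7_ag.SmoothCubics

open AlgebraicGeometry CategoryTheory Pool.Agent.W2helper42.TQ

noncomputable section

variable {p : ℕ}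

/-- The polynomials `x_a x_b - x_c`, `x_a + x_b - x_c` and `x_a - 1`. -/
def Simple {m : ℕ} (q : MvPolynomial (Fin m) (ZMod p)) : Prop :=
  (∃ a b c, q = MvPolynomial.X a * MvPolynomial.X b - MvPolynomial.X c) ∨
    (∃ a b c, q = MvPolynomial.X a + MvPolynomial.X b - MvPolynomial.X c) ∨
    ∃ a, q = MvPolynomial.X a - 1

/-- The polynomial `y_0 q_0(x) + ... + y_r q_r(x) - 1`. -/
def cubic {m r : ℕ} (q : Fin (r + 1) → MvPolynomial (Fin m) (ZMod p)) :
    MvPolynomial (Fin (r + 1)) (MvPolynomial (Fin m) (ZMod p)) :=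
  ∑ j, MvPolynomial.C (q j) * MvPolynomial.X j - 1

/-- The ring `F_p[x_1, ..., x_m, y_0, ..., y_r] / (y_0 q_0(x) + ... + y_r q_r(x) - 1)`. -/
abbrev Cub {m r : ℕ} (q : Fin (r + 1) → MvPolynomial (Fin m) (ZMod p)) : Type :=
  MvPolynomial (Fin (r + 1)) (MvPolynomial (Fin m) (ZMod p)) ⧸ Ideal.span {cubic q}

theorem cubic_eq {m r : ℕ} (q : Fin (r + 1) → MvPolynomial (Fin m) (ZMod p)) :
    cubic q = lin q (-1) := by
  unfold cubic lin
  rw [map_neg, map_one, sub_eq_add_neg]

theorem smooth_cub {m r : ℕ} (q : Fin (r + 1) → MvPolynomial (Fin m) (ZMod p)) :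
    Algebra.Smooth (ZMod p) (Cub q) := by
  unfold Cub
  rw [cubic_eq]
  exact smooth_lin' q

variable {Ω : Type} [Field Ω] [CharZero Ω] {T : Theory Ω}

theorem point (hT : IsTheoryB p T) {m r : ℕ} (q : Fin (r + 1) → MvPolynomial (Fin m) (ZMod p)) :
    T.TB (Sp (Cub q)) ↔
      T.TB (Sp (MvPolynomial (Fin m) (ZMod p) ⧸ Ideal.span (Set.range q))) := by
  unfold Cub
  rw [cubic_eq]
  exact tb_point hT q

theorem affine (hT : IsTheoryB p T) (R : Type) [CommRing R] (hR : Fg p R) :
    ∃ (m r : ℕ) (q : Fin (r + 1) → MvPolynomial (Fin m) (ZMod p)), (∀ j, Simple (q j)) ∧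
      (T.TB (Sp (Cub q)) ↔ T.TB (Sp R)) := by
  obtain ⟨m, r, q, hq, ⟨e⟩⟩ := shape_pos p R hR
  refine ⟨m, r, q, hq, (point hT q).trans ?_⟩
  have hn := nice_tb1 hT
  let E : Sp R ≅ Sp (MvPolynomial (Fin m) (ZMod p) ⧸ Ideal.span (Set.range q)) :=
    Scheme.Spec.mapIso (e.toCommRingCatIso.symm).op
  have h2 : Fg p (MvPolynomial (Fin m) (ZMod p) ⧸ Ideal.span (Set.range q)) := fg_equiv hR e
  exact ⟨fun h => hn.iso _ _ (ft_sp0 h2) E.symm h, fun h => hn.iso _ _ (ft_sp0 hR) E h⟩

/-- Let `T` be motivic and `ℓ`-adic homology of the separated schemes of finite type over the field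
with `p` elements. Every affine scheme `Spec R` has a smooth affine cubic hypersurface
`Spec (Cub q)`, with `Simple` polynomials `q_j`, such that Jannsen's conjecture `TB` holds for one if
and only if it holds for the other. And `TB` holds for all separated schemes of finite type over the
field with `p` elements if and only if it holds for these hypersurfaces. -/
theorem result (p : ℕ) [Fact p.Prime] (Ω : Type) [Field Ω] [CharZero Ω] (T : Theory Ω)
    (hT : IsTheoryB p T) :
    (∀ (R : Type) [CommRing R], Fg p R →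
      ∃ (m r : ℕ) (q : Fin (r + 1) → MvPolynomial (Fin m) (ZMod p)), (∀ j, Simple (q j)) ∧
        Algebra.Smooth (ZMod p) (Cub q) ∧ (T.TB (Sp (Cub q)) ↔ T.TB (Sp R))) ∧
    ((∀ X : Scheme.{0}, FT p X → T.TB X) ↔
      ∀ (m r : ℕ) (q : Fin (r + 1) → MvPolynomial (Fin m) (ZMod p)), (∀ j, Simple (q j)) →
        T.TB (Sp (Cub q))) := by
  have hZ : Fg p (ZMod p) := ⟨RingHom.id _, RingHom.FiniteType.id _⟩
  refine ⟨fun R _ hR => ?_, ⟨fun h m r q _ =>
    h _ (ft_sp0 (fg_quot (fg_mv (fg_mv hZ _) _) _)), fun h => ?_⟩⟩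
  · obtain ⟨m, r, q, hq, hE⟩ := affine hT R hR
    exact ⟨m, r, q, hq, smooth_cub q, hE⟩
  · refine W2helper75.TQ.piece_DEV p (fun X => T.TB X) (nice_tb1 hT) ?_
    intro R _ hR
    obtain ⟨m, r, q, hq, hE⟩ := affine hT R hR
    exact hE.1 (h m r q hq)

end

end Pool.Agent.Results.MP_2ce3e7_ag.SmoothCubics
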